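import Pool.Agent.Q278.VX.P
import Pool.Agent.Q278.VX.R

/-!
# The sum with denominator `(-12288000)^k` modulo `p²`

For every prime `p > 5` the sum `∑_{k<p} (6k)! / ((-12288000)^k (3k)! k!³)` is congruent modulo
`p²` to `(10/p) (L² - 2p)` if `4p = L² + 27M²`, and to `0` if `p = 2 mod 3`.
-/

set_option autoImplicit false

namespace Pool.Agent.Results.MP_286faa_nt.Full

open Finset

/-- the sum `S_p` -/
def S (p : ℕ) : ℚ := ∑ k ∈ range p,
  ((6 * k).factorial : ℚ) / ((-12288000) ^ k * ((3 * k).factorial : ℚ) * (k.factorial : ℚ) ^ 3)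

/-- congruence modulo `p ^ n` of rational numbers with denominators prime to `p` -/
def Cong (p n : ℕ) (u v : ℚ) : Prop := ¬ p ∣ u.den ∧ ¬ p ∣ v.den ∧ (p : ℤ) ^ n ∣ (u - v).num

open Pool.Agent.Q278.YC Pool.Agent.Q267.CDE Q278.PI Pool.Agent.Q278.SX Pool.Agent.Q278.VX

/-- numerators -/
def nS (i : ℕ) : ℤ := -((6 * i + 1) * (2 * i + 1) * (6 * i + 5))

/-- denominators -/
def dS (i : ℕ) : ℤ := 512000 * ((i + 1) * (i + 1) * (i + 1))

theorem term_prod (k : ℕ) : ((6 * k).factorial : ℚ) / ((-12288000) ^ k * ((3 * k).factorial : ℚ) *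
    (k.factorial : ℚ) ^ 3) = ∏ i ∈ range k, (((nS i : ℤ) : ℚ) / ((dS i : ℤ) : ℚ)) := by
  induction k with
  | zero => simp
  | succ k ih =>
    rw [prod_range_succ, ← ih]
    have h1 : ((k : ℚ) + 1) ≠ 0 := by positivity
    have h2 : ((k.factorial : ℕ) : ℚ) ≠ 0 := by exact_mod_cast k.factorial_ne_zero
    have h3 : (((3 * k).factorial : ℕ) : ℚ) ≠ 0 := by exact_mod_cast (3 * k).factorial_ne_zero
    have h4 : ((-12288000 : ℚ)) ^ k ≠ 0 := pow_ne_zero _ (by norm_num)
    have e6 : ((6 * (k + 1)).factorial : ℚ) = (6 * k + 6) * (6 * k + 5) * (6 * k + 4) *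
        (6 * k + 3) * (6 * k + 2) * (6 * k + 1) * ((6 * k).factorial : ℚ) := by
      rw [show 6 * (k + 1) = 6 * k + 1 + 1 + 1 + 1 + 1 + 1 by ring]
      simp only [Nat.factorial_succ]
      push_cast
      ring
    have e3 : ((3 * (k + 1)).factorial : ℚ) = (3 * k + 3) * (3 * k + 2) * (3 * k + 1) *
        ((3 * k).factorial : ℚ) := by
      rw [show 3 * (k + 1) = 3 * k + 1 + 1 + 1 by ring]
      simp only [Nat.factorial_succ]
      push_cast
      ring
    have p1 : (3 * (k : ℚ) + 3) ≠ 0 := by positivity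
    have p2 : (3 * (k : ℚ) + 2) ≠ 0 := by positivity
    have p3 : (3 * (k : ℚ) + 1) ≠ 0 := by positivity
    rw [e6, e3, Nat.factorial_succ]
    unfold nS dS
    push_cast
    field_simp
    ring

theorem dS_nd {p : ℕ} [Fact p.Prime] (h5 : 5 < p) (i : ℕ) (hi : i + 1 < p) : ¬ (p : ℤ) ∣ dS i := by
  obtain ⟨n2, -, n5⟩ := small_nd7 (p := p) h5
  have ni : ¬ (p : ℤ) ∣ ((i : ℤ) + 1) := not_dvd_small _ (by omega) (by omega) (by omega)
  have h := not_dvd_mul (pow_nd n2 12) (pow_nd n5 3)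
  norm_num at h
  unfold dS
  exact not_dvd_mul h (not_dvd_mul (not_dvd_mul ni ni) ni)

theorem S_coe {p : ℕ} [Fact p.Prime] (h5 : 5 < p) : ((SO p nS dS : O p) : ℚ) = S p := by
  rw [SO_coe _ _ (dS_nd h5)]
  unfold S
  exact sum_congr rfl fun k _ => (term_prod k).symm

theorem S_res {p : ℕ} [Fact p.Prime] (h5 : 5 < p) (y z : R p) (hy : 6 * y = 1)
    (hz : 64000 * z = -9) : res2 p (SO p nS dS) = Hs3 p y (3 * y) (5 * y) z 0 0 0 0 0 0 :=
  SO_tm3 nS dS y (3 * y) (5 * y) z 0 0 0 0 0 0 (fun i => 6 * (i : R p) + 1)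
    (fun i => 2 * (i : R p) + 1) (fun i => 6 * (i : R p) + 5)
    (fun i => (i : R p) + 1) (fun i => (i : R p) + 1) (fun i => (i : R p) + 1) (-1) 512000
    6 2 6 1 1 1 (dS_nd h5)
    (fun i => by unfold nS; push_cast; ring) (fun i => by unfold dS; push_cast; ring)
    (fun i => by linear_combination -hy) (fun i => by linear_combination -hy)
    (fun i => by linear_combination (-5 : R p) * hy)
    (fun i => by ring) (fun i => by ring) (fun i => by ring) (by linear_combination (8 : R p) * hz)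

/-- **The sum with denominator `(-12288000)^k`.** -/
theorem result (p : ℕ) [hp : Fact p.Prime] (h5 : 5 < p) :
    (∀ L M : ℤ, 4 * (p : ℤ) = L ^ 2 + 27 * M ^ 2 →
      Cong p 2 (S p) ((legendreSym p 10 : ℚ) * ((L : ℚ) ^ 2 - 2 * p))) ∧
      (p % 3 = 2 → Cong p 2 (S p) 0) := by
  obtain ⟨n2, n3, n5⟩ := small_nd7 (p := p) h5
  have n6 := not_dvd_mul n2 n3
  norm_num at n6
  have n64 := not_dvd_mul (pow_nd n2 9) (pow_nd n5 3)
  norm_num at n64
  have hy := res2_invI p 6 n6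
  have hz0 := res2_invI p 64000 n64
  push_cast at hy hz0
  have hz : 64000 * (-9 * res2 p (invI p 64000)) = (-9 : R p) := by linear_combination -9 * hz0
  have hodd : p % 2 = 1 := hp.out.eq_two_or_odd.resolve_left (by omega)
  have hS := S_res h5 _ _ hy hz
  have m1 := (SO p nS dS : O p).2
  have hp3 : p % 3 ≠ 0 := by
    intro h
    have h' : 3 ∣ p := Nat.dvd_of_mod_eq_zero h
    have := (Nat.prime_dvd_prime_iff_eq Nat.prime_three hp.out).1 h'
    omega
  constructor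
  · intro L M hLM
    have hL3 : (L % 3 = 1 ∨ L % 3 = 2) ∧ (p : ℤ) % 3 = 1 := by
      have h1 : (p : ℤ) % 3 = L ^ 2 % 3 := by
        have : (4 * (p : ℤ)) % 3 = L ^ 2 % 3 := by rw [hLM]; omega
        omega
      have h0 : (p : ℤ) % 3 ≠ 0 := by omega
      have h2 : L ^ 2 % 3 = L % 3 * (L % 3) % 3 := by rw [pow_two, Int.mul_emod]
      have : L % 3 = 0 ∨ L % 3 = 1 ∨ L % 3 = 2 := by omega
      rcases this with h | h | h <;> rw [h] at h2 ⊢ <;> norm_num at h2 ⊢ <;> omega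
    obtain ⟨r, hr⟩ : ∃ r, p = 6 * r + 1 := ⟨p / 6, by omega⟩
    have hC : CC p r ^ 2 = (L : R p) ^ 2 - 2 * p := by
      rcases hL3.1 with h | h
      · obtain ⟨c1, c2⟩ := CC_rel hr (-L) M (by rw [neg_sq]; exact hLM) (by omega)
        push_cast at c1 c2
        linear_combination c1 + c2
      · obtain ⟨c1, c2⟩ := CC_rel hr L M hLM (by omega)
        linear_combination c1 + c2
    have hv := S_value hr _ _ hy hz
    rw [hC, ← hS] at hv
    have e : (legendreSym p 10 : ℚ) * ((L : ℚ) ^ 2 - 2 * p) =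
        ((((legendreSym p 10 : ℤ) : O p) * ((L : O p) ^ 2 - 2 * (p : O p)) : O p) : ℚ) := by
      push_cast
      rfl
    have m3 := ((((legendreSym p 10 : ℤ) : O p) * ((L : O p) ^ 2 - 2 * (p : O p)) : O p)).2
    rw [← S_coe h5, e]
    refine ⟨m1, m3, cong_of_res2 p _ _ ?_⟩
    rw [hv, map_mul, map_sub, map_mul, map_pow, map_intCast, map_intCast, map_natCast, map_ofNat]
  · intro h3
    obtain ⟨m, hm⟩ : ∃ m, p = 6 * m + 5 := ⟨p / 6, by omega⟩
    have hz2 := S_zero hm _ _ h5 hy hz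
    rw [← S_coe h5]
    refine ⟨m1, by simpa using hp.out.one_lt.ne', ?_⟩
    have h1 : res2 p (SO p nS dS) = res2 p 0 := by rw [hS, hz2, map_zero]
    have h4 := cong_of_res2 p _ _ h1
    exact h4

end Pool.Agent.Results.MP_286faa_nt.Full
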